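import Mathlib
import Pool.Agent.H323Z.CFMain

set_option autoImplicit false

namespace Pool.Agent.Results.MP_88f7c7_lc.AUndecidable

open Pool.Agent.H323Z.CF

/-- There is a substitution on four letters (namely `0 ↦ 010`, `1 ↦ 13`, `2 ↦ 2`, `3 ↦ 23`) such
that no algorithm decides, given a context-free grammar, whether some word generated by the grammar
occurs in a point of the subshift of the substitution. -/
theorem result : ∃ τ : Fin 4 → List (Fin 4),
    ¬ ComputablePred (fun c : ℕ × List (ℕ × List (Fin 4 ⊕ ℕ)) =>
      ∃ w : List (Fin 4), w ∈ (toGrammar c).language ∧ w ∈ lang (subshift τ)) :=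
  ⟨tau, main⟩

end Pool.Agent.Results.MP_88f7c7_lc.AUndecidable
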